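import Mathlib
import Pool.Agent.H58.NoExt

set_option autoImplicit false

namespace Pool.Agent.Results.MP_771c73_an.Disproof

open Pool.Agent.H58.NoExt

theorem result : ∀ (𝕜 : Type) [RCLike 𝕜],
    ∃ (E : Type) (_ : NormedAddCommGroup E) (_ : NormedSpace 𝕜 E),
      CompleteSpace E ∧ TopologicalSpace.SeparableSpace E ∧
      ∃ G : Submodule 𝕜 E, IsClosed (G : Set E) ∧
      ∃ φ : ℕ → (G →L[𝕜] 𝕜), (∀ n, ‖φ n‖ ≤ 1) ∧
        ∀ f : ℕ → (E →L[𝕜] 𝕜), (∀ (n : ℕ) (g : G), f n g = φ n g) → (∃ C : ℝ, ∀ n, ‖f n‖ ≤ C) →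
          ¬ Dense {z : E | ∃ g ∈ G, ∃ y : E, (∀ n, f n y = 0) ∧ z = g + y} := by
  intro 𝕜 _
  obtain ⟨e, he⟩ := exists_surjective_nat (Σ n : ℕ, (Fin n → Bool))
  refine ⟨C(KK, 𝕜), inferInstance, inferInstance, inferInstance, inferInstance, GG 𝕜,
    Submodule.isClosed_topologicalClosure _,
    fun k => (ContinuousMap.evalCLM 𝕜 (pt (e k).1 (e k).2)).comp (GG 𝕜).subtypeL, ?_, ?_⟩
  · intro k
    refine ContinuousLinearMap.opNorm_le_bound _ zero_le_one fun g => ?_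
    rw [one_mul]
    exact ContinuousMap.norm_coe_le_norm (g : C(KK, 𝕜)) _
  · rintro f hf ⟨C, hC⟩ hd
    choose s hs using he
    refine main 𝕜 (fun n τ => f (s ⟨n, τ⟩)) C ?_ ?_ ?_
    · intro n τ g hg
      have := hf (s ⟨n, τ⟩) ⟨g, hg⟩
      beta_reduce at this
      rw [hs] at this
      exact this
    · intro n τ u
      exact ((f _).le_opNorm u).trans (mul_le_mul_of_nonneg_right (hC _) (norm_nonneg _))
    · refine hd.mono ?_
      rintro _ ⟨g, hg, y, hy, rfl⟩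
      exact ⟨g, hg, y, fun n τ => hy _, rfl⟩

end Pool.Agent.Results.MP_771c73_an.Disproof
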